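import Mathlib

set_option autoImplicit false

namespace Pool.Agent.H.MP_743583_al

open Filter Topology Monoid Monoid.CoprodI

/-- proportion of a subset of a finite type -/
noncomputable def fr {A : Type} (s : Set A) : ℝ := (s.ncard : ℝ) / Nat.card A

theorem fr_nonneg {A : Type} (s : Set A) : 0 ≤ fr s := by unfold fr; positivity

theorem fr_mono {A : Type} [Finite A] {s t : Set A} (h : s ⊆ t) : fr s ≤ fr t := by
  unfold fr
  gcongr
  exact Set.toFinite _

theorem fr_union {A : Type} (s t : Set A) : fr (s ∪ t) ≤ fr s + fr t := by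
  unfold fr
  rw [← add_div]
  gcongr
  exact_mod_cast Set.ncard_union_le s t

theorem fr_perm {A : Type} (σ : Equiv.Perm A) (s : Set A) : fr (σ ⁻¹' s) = fr s := by
  unfold fr
  rw [Set.ncard_preimage_of_injective_subset_range σ.injective (by simp)]

theorem fr_compl {A : Type} [Finite A] [Nonempty A] (s : Set A) (ε : ℝ) :
    fr sᶜ < ε ↔ (1 - ε) * Nat.card A < s.ncard := by
  have h : (0 : ℝ) < Nat.card A := by exact_mod_cast Nat.card_pos
  have h2 : (s.ncard : ℝ) + sᶜ.ncard = Nat.card A := by exact_mod_cast Set.ncard_add_ncard_compl s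
  rw [fr, div_lt_iff₀ h]
  constructor <;> intro <;> linarith

theorem fr_equiv {A C D : Type} [Finite D] [Nonempty D] (e : A ≃ C × D) (s : Set C) :
    fr {a | (e a).1 ∈ s} = fr s := by
  have h : (Nat.card D : ℝ) ≠ 0 := by exact_mod_cast Nat.card_pos.ne'
  have h1 : {a | (e a).1 ∈ s} = e ⁻¹' (s ×ˢ Set.univ) := by ext; simp
  unfold fr
  rw [h1, Set.ncard_preimage_of_injective_subset_range e.injective (by simp), Set.ncard_prod,
    Nat.card_congr e, Nat.card_prod, Set.ncard_univ]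
  push_cast
  rw [mul_div_mul_right _ _ h]

section AE
variable {T : Type} (l : Filter T) {A : T → Type} [∀ t, Finite (A t)]

/-- asymptotically almost everywhere -/
def AE (P : ∀ t, A t → Prop) : Prop := Tendsto (fun t => fr {a | ¬ P t a}) l (𝓝 0)

variable {l}

theorem AE.mono {P Q : ∀ t, A t → Prop} (h : AE l P) (H : ∀ t a, P t a → Q t a) : AE l Q :=
  squeeze_zero (fun _ => fr_nonneg _) (fun t => fr_mono fun a ha hp => ha (H t a hp)) h

theorem AE.and {P Q : ∀ t, A t → Prop} (h : AE l P) (h' : AE l Q) :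
    AE l (fun t a => P t a ∧ Q t a) := by
  refine squeeze_zero (fun _ => fr_nonneg _) (fun t => le_trans (fr_mono ?_) (fr_union _ _))
    (by simpa using h.add h')
  intro a ha
  exact not_and_or.1 ha

omit [∀ t, Finite (A t)] in
theorem AE.comp {P : ∀ t, A t → Prop} (h : AE l P) (σ : ∀ t, Equiv.Perm (A t)) :
    AE l (fun t a => P t (σ t a)) := by
  refine Tendsto.congr (fun t => (fr_perm (σ t) {a | ¬ P t a}).symm) h

omit [∀ t, Finite (A t)] in
theorem AE.of_all {P : ∀ t, A t → Prop} (h : ∀ᶠ t in l, ∀ a, P t a) : AE l P :=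
  tendsto_const_nhds.congr' (h.mono fun t ht => by simp [ht, fr])

theorem AE.finset {κ : Type*} (s : Finset κ) {P : κ → ∀ t, A t → Prop} (h : ∀ k ∈ s, AE l (P k)) :
    AE l (fun t a => ∀ k ∈ s, P k t a) := by
  classical
  induction s using Finset.induction_on with
  | empty => exact AE.of_all (by simp)
  | insert k s _ ih =>
    exact ((h k (by simp)).and (ih fun j hj => h j (by simp [hj]))).mono fun t a ha => by
      simpa using ha

end AE

/-- skew product lift of a permutation of one coordinate -/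
def skew {J : Type} [DecidableEq J] {A : J → Type} {B : Type} (i : J) (ρ : A i → Equiv.Perm B)
    (σ : Equiv.Perm (A i)) : Equiv.Perm ((∀ j, A j) × Equiv.Perm B) where
  toFun p := (Function.update p.1 i (σ (p.1 i)), p.2 * (ρ (p.1 i))⁻¹ * ρ (σ (p.1 i)))
  invFun p := (Function.update p.1 i (σ⁻¹ (p.1 i)), p.2 * (ρ (p.1 i))⁻¹ * ρ (σ⁻¹ (p.1 i)))
  left_inv p := by simp
  right_inv p := by simp

/-- the finite data of an approximation -/
def Approx {G X : Type} [Group G] (α : G →* Equiv.Perm X) (F : Finset G) (E : Finset X) (ε : ℝ) :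
    Prop :=
  ∃ (A : Type) (_ : Finite A) (φ : G → Equiv.Perm A), φ 1 = 1 ∧
    (∀ g ∈ F, ∀ h ∈ F,
      (({a | φ (g * h) a ≠ (φ g * φ h) a} : Set A).ncard : ℝ) / Nat.card A < ε) ∧
    ∃ (B : Type) (_ : Finite B) (S : Set A) (π : S → (E ↪ B)),
      (1 - ε) * Nat.card A < S.ncard ∧
      ∀ (s : S) (g : G) (x : E), g ∈ F → ∀ (h1 : φ g s ∈ S) (h2 : α g⁻¹ x ∈ E),
        π ⟨φ g s, h1⟩ x = π s ⟨α g⁻¹ x, h2⟩

variable {I X : Type} {G : I → Type} [∀ i, Group (G i)] (α : ∀ i, G i →* Equiv.Perm X)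

theorem sync (H : ∀ i F E ε, 0 < ε → Approx (α i) F E ε) (F : Finset (Σ i, G i)) (E : Finset X)
    (ε : ℝ) (h0 : 0 < ε) (h1 : ε ≤ 1) :
    ∃ (A B : Type) (_ : Finite A) (_ : Nonempty A) (_ : Finite B) (φ : ∀ i, G i → Equiv.Perm A)
      (π : A → X → B), (∀ i, φ i 1 = 1) ∧ (∀ s, Set.InjOn (π s) E) ∧
      (∀ i a b, ⟨i, a⟩ ∈ F → ⟨i, b⟩ ∈ F → fr {s | ¬ φ i (a * b) s = φ i a (φ i b s)} ≤ ε) ∧
      ∀ i a x, ⟨i, a⟩ ∈ F → x ∈ E → α i a⁻¹ x ∈ E →
        fr {s | ¬ π (φ i a s) x = π s (α i a⁻¹ x)} ≤ 2 * ε := by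
  classical
  choose A hA φ p1 p2 B hB S π p3 p4 using fun i =>
    H i (F.preimage (Sigma.mk i) sigma_mk_injective.injOn) E ε h0
  have hne : ∀ i, Nonempty (A i) := fun i => by
    have : (0 : ℝ) < (S i).ncard := lt_of_le_of_lt (mul_nonneg (by linarith) (Nat.cast_nonneg _)) (p3 i)
    obtain ⟨a, -⟩ := Set.nonempty_of_ncard_ne_zero (s := S i) (by exact_mod_cast this.ne')
    exact ⟨a⟩
  let J : Type := {i // i ∈ F.image Sigma.fst}
  let C : Type := Option (E ⊕ Σ j : J, B j)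
  let ι : X → C := fun x => if h : x ∈ E then some (Sum.inl ⟨x, h⟩) else none
  have hι : Set.InjOn ι E := fun x hx y hy h => by
    simp only [ι, dif_pos (Finset.mem_coe.1 hx), dif_pos (Finset.mem_coe.1 hy)] at h
    exact congrArg Subtype.val (Sum.inl_injective (Option.some_injective _ h))
  have hρ : ∀ (j : J) (s : A j), ∃ ρ : Equiv.Perm C, ∀ (h : s ∈ S j) (x : E),
      ρ (ι x) = some (Sum.inr ⟨j, π j ⟨s, h⟩ x⟩) := fun j s => by
    by_cases h : s ∈ S j
    · obtain ⟨ρ, hρ⟩ := Equiv.Perm.exists_extending_pair (f := fun x : E => ι x)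
        (g := fun x : E => (some (Sum.inr ⟨j, π j ⟨s, h⟩ x⟩) : C))
        (fun x y e => Subtype.ext (hι x.2 y.2 e)) (fun x y e => (π j ⟨s, h⟩).injective
          (sigma_mk_injective (β := fun j : J => B j) (Sum.inr_injective (Option.some_injective _ e))))
      exact ⟨ρ, fun _ => hρ⟩
    · exact ⟨1, fun h' => absurd h' h⟩
  choose ρ hρ using hρ
  have hfr : ∀ (j : J) (s : Set (A j)),
      fr {p : (∀ j : J, A j) × Equiv.Perm C | p.1 j ∈ s} = fr s := fun j s =>
    fr_equiv (((Equiv.piSplitAt j fun j : J => A j).prodCongr (Equiv.refl _)).trans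
      (Equiv.prodAssoc _ _ _)) s
  refine ⟨(∀ j : J, A j) × Equiv.Perm C, C, inferInstance, inferInstance, inferInstance,
    fun i a => if h : i ∈ F.image Sigma.fst then
      skew (A := fun j : J => A j) ⟨i, h⟩ (ρ ⟨i, h⟩) (φ i a) else 1,
    fun p x => p.2 (ι x), fun i => ?_, fun p x hx y hy h => hι hx hy (p.2.injective h),
    fun i a b ha hb => ?_, fun i a x ha hx hx' => ?_⟩
  · dsimp only
    split_ifs
    · ext1 p
      simp [skew, p1]
    · rfl
  · have hi : i ∈ F.image Sigma.fst := Finset.mem_image_of_mem _ ha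
    simp only [dif_pos hi]
    refine le_trans (fr_mono ?_) ((hfr ⟨i, hi⟩ _).le.trans
      (p2 i a (Finset.mem_preimage.2 ha) b (Finset.mem_preimage.2 hb)).le)
    intro p hp e
    apply hp
    simp only [Equiv.Perm.mul_apply] at e
    simp [skew, e]
  · have hi : i ∈ F.image Sigma.fst := Finset.mem_image_of_mem _ ha
    simp only [dif_pos hi]
    have h3 := ((fr_compl (S i) ε).2 (p3 i)).le
    refine le_trans (fr_mono (t := {p : (∀ j : J, A j) × Equiv.Perm C |
      p.1 ⟨i, hi⟩ ∈ (S i)ᶜ ∪ φ i a ⁻¹' (S i)ᶜ}) ?_) ((hfr ⟨i, hi⟩ _).le.trans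
      ((fr_union _ _).trans (by rw [fr_perm]; linarith)))
    intro p hp
    by_contra hc
    simp only [Set.mem_ofPred_eq, Set.mem_union, Set.mem_compl_iff, Set.mem_preimage, not_or,
      not_not] at hc
    apply hp
    have e1 := hρ ⟨i, hi⟩ _ hc.2 ⟨x, hx⟩
    have e2 := hρ ⟨i, hi⟩ _ hc.1 ⟨_, hx'⟩
    rw [p4 i ⟨_, hc.1⟩ a ⟨x, hx⟩ (Finset.mem_preimage.2 ha) hc.2 hx', ← e2] at e1
    simp only [skew, Equiv.coe_fn_mk, Equiv.Perm.mul_apply]
    rw [e1]
    simp

theorem ext {T : Type} (l : Filter T) [l.NeBot] (A B : T → Type) [∀ t, Finite (A t)]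
    [∀ t, Nonempty (A t)] [∀ t, Finite (B t)] (φ : ∀ t i, G i → Equiv.Perm (A t))
    (π : ∀ t, A t → X → B t) (p1 : ∀ t i, φ t i 1 = 1)
    (p2 : ∀ E : Finset X, ∀ᶠ t in l, ∀ s, Set.InjOn (π t s) E)
    (a3 : ∀ i a b, AE l (fun t s => φ t i (a * b) s = φ t i a (φ t i b s)))
    (a4 : ∀ i a x, AE l (fun t s => π t (φ t i a s) x = π t s (α i a⁻¹ x)))
    (F : Finset (CoprodI G)) (E : Finset X)
    (ε : ℝ) (h0 : 0 < ε) : Approx (CoprodI.lift α) F E ε := by
  classical
  let Ψ : ∀ t, Word G → Equiv.Perm (A t) := fun t w => (w.toList.map fun p => φ t p.1 p.2).prod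
  have r1 : ∀ t i (p : Word.Pair G i), Ψ t (Word.rcons p) = φ t i p.head * Ψ t p.tail := by
    intro t i p
    unfold Word.rcons
    split_ifs with h
    · rw [h, p1, one_mul]
    · simp [Ψ, Word.cons]
  have r0 : ∀ t, Ψ t Word.empty = 1 := fun t => rfl
  have s1 : ∀ i (m : G i) w, AE l (fun t s => Ψ t (of m • w) s = φ t i m (Ψ t w s)) := by
    intro i m w
    refine ((a3 i m (Word.equivPair i w).head).comp fun t => Ψ t (Word.equivPair i w).tail).mono
      fun t s h => ?_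
    rw [Word.of_smul_def, r1]
    conv_rhs => rw [← (Word.equivPair i).symm_apply_apply w, Word.equivPair_symm, r1]
    exact h
  have s2 : ∀ (g : CoprodI G) w,
      AE l (fun t s => Ψ t (g • w) s = Ψ t (g • Word.empty) (Ψ t w s)) := by
    intro g w
    induction g using CoprodI.induction_left with
    | one => exact AE.of_all (by simp [r0])
    | mul m g ih =>
      refine ((s1 _ m (g • w)).and (ih.and ((s1 _ m (g • Word.empty)).comp fun t => Ψ t w))).mono
        fun t s h => ?_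
      rw [mul_smul, mul_smul, h.1, h.2.1, h.2.2]
  have s3 : ∀ (g : CoprodI G) x,
      AE l (fun t s => π t (Ψ t (g • Word.empty) s) x = π t s (CoprodI.lift α g⁻¹ x)) := by
    intro g
    induction g using CoprodI.induction_left with
    | one => exact fun x => AE.of_all (by simp [r0])
    | mul m g ih =>
      intro x
      refine ((s1 _ m (g • Word.empty)).and ((ih (α _ m⁻¹ x)).and
        ((a4 _ m x).comp fun t => Ψ t (g • Word.empty)))).mono fun t s h => ?_
      rw [mul_smul, h.1, h.2.2, h.2.1]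
      simp
  have f1 := AE.finset F fun g _ => AE.finset F fun h _ => s2 g (h • Word.empty)
  have f2 := AE.finset F fun g _ => AE.finset E fun x _ => s3 g x
  have g1 := Tendsto.eventually f1 (gt_mem_nhds h0)
  have g2 := Tendsto.eventually f2 (gt_mem_nhds h0)
  obtain ⟨t, ⟨b1, b2⟩, b3⟩ := ((g1.and g2).and (p2 E)).exists
  let S : Set (A t) :=
    {s | ∀ g ∈ F, ∀ x ∈ E, π t (Ψ t (g • Word.empty) s) x = π t s (CoprodI.lift α g⁻¹ x)}
  refine ⟨A t, inferInstance, fun g => Ψ t (g • Word.empty), by simp only [one_smul, r0],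
    fun g hg h hh => ?_, B t, inferInstance, S,
    fun s => ⟨fun x => π t s x, fun x y e => Subtype.ext (b3 s x.2 y.2 e)⟩,
    (fr_compl S ε).1 b2, fun s g x hg _ _ => s.2 g hg x x.2⟩
  refine lt_of_le_of_lt (fr_mono ?_) b1
  intro s hs hc
  apply hs
  simp only [mul_smul]
  exact hc g hg h hh

theorem main (H : ∀ i F E ε, 0 < ε → Approx (α i) F E ε) (F : Finset (CoprodI G)) (E : Finset X)
    (ε : ℝ) (h0 : 0 < ε) : Approx (CoprodI.lift α) F E ε := by
  classical
  choose A B hA hN hB φ π p1 p2 p3 p4 using fun t : Finset (Σ i, G i) × Finset X × ℕ =>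
    sync α H t.1 t.2.1 (1 / ((t.2.2 : ℝ) + 1)) (by positivity) (by
      rw [div_le_one (by positivity)]; linarith [Nat.cast_nonneg (α := ℝ) t.2.2])
  have t0 : Tendsto (fun t : Finset (Σ i, G i) × Finset X × ℕ => 1 / ((t.2.2 : ℝ) + 1)) atTop (𝓝 0) :=
    tendsto_one_div_add_atTop_nhds_zero_nat.comp (tendsto_atTop.2 fun n =>
      (eventually_ge_atTop (∅, ∅, n)).mono fun t ht => ht.2.2)
  have m1 : ∀ a, ∀ᶠ t : Finset (Σ i, G i) × Finset X × ℕ in atTop, a ∈ t.1 := fun a =>
    (eventually_ge_atTop ({a}, ∅, 0)).mono fun t ht => ht.1 (Finset.mem_singleton_self a)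
  have m2 : ∀ x, ∀ᶠ t : Finset (Σ i, G i) × Finset X × ℕ in atTop, x ∈ t.2.1 := fun x =>
    (eventually_ge_atTop (∅, {x}, 0)).mono fun t ht => ht.2.1 (Finset.mem_singleton_self x)
  have a3 : ∀ i a b, AE atTop (fun t s => φ t i (a * b) s = φ t i a (φ t i b s)) := fun i a b =>
    squeeze_zero' (Eventually.of_forall fun _ => fr_nonneg _)
      (((m1 ⟨i, a⟩).and (m1 ⟨i, b⟩)).mono fun t ht => p3 t i a b ht.1 ht.2) t0
  have a4 : ∀ i a x, AE atTop (fun t s => π t (φ t i a s) x = π t s (α i a⁻¹ x)) := fun i a x =>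
    squeeze_zero' (Eventually.of_forall fun _ => fr_nonneg _)
      (((m1 ⟨i, a⟩).and ((m2 x).and (m2 _))).mono fun t ht => p4 t i a x ht.1 ht.2.1 ht.2.2)
      (by simpa using t0.const_mul 2)
  exact ext α atTop A B φ π p1 (fun E => (eventually_ge_atTop (∅, E, 0)).mono fun t ht s =>
    (p2 t s).mono (Finset.coe_subset.2 (Prod.le_def.1 (Prod.le_def.1 ht).2).1)) a3 a4 F E ε h0

end Pool.Agent.H.MP_743583_al
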